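import Pool.Agent.U181.IP.All

set_option autoImplicit false

/-!
# The isomorphism problem for groups built by direct and free products, torsion allowed

Finite presentations are coded by `Pres = ℕ × List Wd`, `Wd = List (ℕ × Bool)`; `PG p` is the group
of the code `p = (n, R)`: generators `x 0, ..., x (n - 1)` and the relators in `R`, where `(i, true)` is
the letter `x i`, `(i, false)` its inverse, and letters with `i ≥ n` are deleted
(`Pool.Agent.Q223.IS.Code`). From `Pool.Agent.Q32.DP.Stm`, `Stm2`:

* `Indecomposable G`: `G` is nontrivial and not a direct product of two nontrivial groups;
* `FreelyIndec G`: `G` is nontrivial and not a free product of two nontrivial groups;
* `Solvable C`: there is a partial recursive function which for all codes `a`, `b` in `C` halts and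
  decides whether `PG a` and `PG b` are isomorphic (nothing is required outside of `C`).

`BuiltF C` is defined in `Pool.Agent.U181.IP.All`: the codes of the groups which are built from the
groups in `C`, finite groups and finitely presented abelian groups by direct and free products of two
groups.

Proof. Every group in `BuiltF C` is a direct product of an abelian group and of nonabelian directly
indecomposable groups with finite centre, each of them in `C`, or finite, or a free product of a free
group and of freely indecomposable groups which are not infinite cyclic, each in `C`, or finite, or
again a direct product, and so on. The direct decompositions are unique up to isomorphism of the
factors (a theorem of Krull, Remak and Schmidt without chain conditions, by a Fitting lemma for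
groups with finite centre), the free ones by Kurosh's theorem, which is proved by actions on trees.
So non-isomorphism has finite certificates: the decompositions, and labels of the factors by their
isomorphism types, different labels being justified by certificates for the factors; finite groups
are compared by their multiplication tables, abelian groups by the numbers of their homomorphisms to
finite cyclic groups. The algorithm searches for an isomorphism and for such a certificate.
-/

namespace Pool.Agent.Results.MP_32d917_al.BuiltWithTorsion

open Pool.Agent.Q223.IS Pool.Agent.Q32.DP Pool.Agent.U181.IP

/-- Let `C` be a recursively enumerable class of finite presentations of infinite groups with finite
centre which are neither direct products nor free products of two nontrivial groups. If the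
isomorphism problem is solvable for `C`, then it is solvable for the class of all finite presentations
of the groups which are built from the groups in `C`, finite groups and abelian groups by direct
products and free products of two groups. -/
theorem result (C : Pres → Prop) (hC : REPred C)
    (hB : ∀ k, C k → Infinite (PG k) ∧ {z : PG k | ∀ g, z * g = g * z}.Finite ∧
      Indecomposable (PG k) ∧ FreelyIndec (PG k))
    (hS : Solvable C) : Solvable (BuiltF C) :=
  main C hC hB hS

end Pool.Agent.Results.MP_32d917_al.BuiltWithTorsion
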