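import Pool.Agent.Q32.DP.ALG
import Pool.Agent.Q32.DP.KS
import Pool.Agent.Q32.DP.NONMATCH
import Pool.Agent.Q32.DP.PROD2
import Pool.Agent.Q32.DP.PRODL
import Pool.Agent.Q32.DP.ZNS

set_option autoImplicit false

/-!
# The isomorphism problem for direct products

Finite presentations are coded by `Pres = ℕ × List Wd`, `Wd = List (ℕ × Bool)`; `PG p` is the group
of the code `p = (n, R)`: generators `x 0, ..., x (n - 1)` and the relators in `R`, where `(i, true)` is
the letter `x i`, `(i, false)` its inverse, and letters with `i ≥ n` are deleted
(`Pool.Agent.Q223.IS.Code`). From `Pool.Agent.Q32.DP.Stm`, `Stm2`: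

* `Centerless G`: the centre of `G` is trivial;
* `Indecomposable G`: `G` is nontrivial and not the direct product of two nontrivial groups;
* `Solvable C`: there is a partial recursive function which for all codes `a`, `b` in `C` halts and
  decides whether `PG a` and `PG b` are isomorphic (nothing is required outside of `C`);
* `Prods CA CK`: the codes of the groups isomorphic to `PG a × PG k₁ × ... × PG k_r`, `r ≥ 0`, with
  `a` in `CA` and all `k_i` in `CK`;
* `ZN`: the codes of the free abelian groups of finite rank.

Torsion and free splittings of the groups are allowed.

Proof. The decomposition of a group as a product of an abelian group and centreless directly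
indecomposable groups is unique up to isomorphism and order of the factors (Krull-Remak-Schmidt, in
a form without chain conditions). So non-isomorphism of two such products is recursively enumerable:
search for presentations of the factors and for a proof that they do not match.
-/

namespace Pool.Agent.Results.MP_32d917_al.DirectProducts

open Pool.Agent.Q223.IS Pool.Agent.Q32.DP

/-- Let `CK` be a recursively enumerable class of finite presentations of directly indecomposable
groups with trivial centre, with solvable isomorphism problem. (1) If `CA` is a recursively
enumerable class of finite presentations of abelian groups with solvable isomorphism problem, then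
the isomorphism problem is solvable for the class of all finite presentations of the groups
`A × K₁ × ... × K_r` with `A` in `CA` and `K_i` in `CK`. (2) In particular it is solvable for the finite
presentations of the groups `ℤ^m × K₁ × ... × K_r`. -/
theorem result (CK : Pres → Prop) (hre : REPred CK)
    (hK : ∀ k, CK k → Centerless (PG k) ∧ Indecomposable (PG k)) (hS : Solvable CK) :
    (∀ CA : Pres → Prop, REPred CA → (∀ a, CA a → ∀ x y : PG a, x * y = y * x) → Solvable CA →
      Solvable (Prods CA CK)) ∧
    Solvable (Prods ZN CK) := by
  have h : ∀ CA : Pres → Prop, REPred CA → (∀ a, CA a → ∀ x y : PG a, x * y = y * x) →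
      Solvable CA → Solvable (Prods CA CK) := fun CA h1 h2 h3 =>
    ALG.t (PRODL.t PROD2.t) KS.t NONMATCH.t CA CK h1 hre h2 hK h3 hS
  refine ⟨h, h ZN ZNS.t.1 ?_ ZNS.t.2⟩
  rintro a ⟨m, ⟨e⟩⟩ x y
  apply e.injective
  rw [map_mul, map_mul, mul_comm]

end Pool.Agent.Results.MP_32d917_al.DirectProducts
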