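import Pool.Agent.U670.WD.Asm

set_option autoImplicit false

/-!
# MP_32d917_al, Q1: finite groups permuting the factors of direct products

(1) If the isomorphism problem is solvable for a recursively enumerable class `C` of finite
presentations of irreducible groups (`Irr`), then it is solvable for the class `PermC C` of all finite
presentations of groups `(∏ i, G i ^ X i) ⋊ Q`, where the `G i` have presentations in `C` and the
finite group `Q` permutes the factors (faithfully or not). All permutational wreath products of the
groups in `C` with finite groups and all direct products of groups in `C` are of this form.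

(2) The classification of these groups up to isomorphism.

(3) If moreover the groups in `C` are freely indecomposable, then (1) applies to the class `Irs C`,
which consists of `C` and of the free products of two nontrivial groups, not both of order two, in
the class `BuiltF C` (direct and free products of groups in `C`, finite and abelian groups).

(4) The case that `C` is empty, which is unconditional.
-/

namespace Pool.Agent.Results.MP_32d917_al.WreathProducts

open Pool.Agent.Q223.IS Pool.Agent.Q32.DP
open Pool.Agent.U670.WC (Irr CWr Irs FPr)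
open Pool.Agent.U670.WD (PermC)

theorem result :
    (∀ C : Pres → Prop, REPred C → (∀ k, C k → Irr (PG k)) → Solvable C →
      REPred (PermC C) ∧ Solvable (PermC C)) ∧
    (∀ (I J : Type) (X G : I → Type) (Y H : J → Type) (Q R : Type) [∀ i, Group (G i)]
      [∀ j, Group (H j)] [Group Q] [∀ i, MulAction Q (X i)] [Group R] [∀ j, MulAction R (Y j)]
      [Finite Q] [Finite R] [Finite (Σ i, X i)] [Finite (Σ j, Y j)],
      (∀ i, Irr (G i)) → (∀ j, Irr (H j)) →
      (Nonempty (CWr X G Q ≃* CWr Y H R) ↔
        ∃ (θ : Q ≃* R) (σ : (Σ i, X i) ≃ (Σ j, Y j)), (∀ q p, σ (q • p) = θ q • σ p) ∧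
          ∀ p, Nonempty (G p.1 ≃* H (σ p).1))) ∧
    (∀ C : Pres → Prop, REPred C → (∀ k, C k → Irr (PG k) ∧ FreelyIndec (PG k)) → Solvable C →
      (REPred (Irs C) ∧ (∀ k, Irs C k → Irr (PG k)) ∧ Solvable (Irs C)) ∧
      REPred (PermC (Irs C)) ∧ Solvable (PermC (Irs C))) ∧
    REPred (PermC (FPr fun _ => False)) ∧ Solvable (PermC (FPr fun _ => False)) := by
  refine ⟨fun C hC hI hS => ⟨Pool.Agent.U670.WD.permC_re hC, Pool.Agent.U670.WD.main C hC hI hS⟩,
    ?_, Pool.Agent.U670.WD.comb, Pool.Agent.U670.WD.unconditional⟩
  intro I J X G Y H Q R _ _ _ _ _ _ _ _ _ _ hG hH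
  classical
  exact ⟨fun ⟨e⟩ => Pool.Agent.U670.WD.key hG hH e,
    fun ⟨θ, σ, h1, h2⟩ => Pool.Agent.U670.WD.conv θ σ h1 h2⟩

end Pool.Agent.Results.MP_32d917_al.WreathProducts
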